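import Pool.Agent.Helper86.TH.R2
import Pool.Agent.Helper26.OB.Res

/-!
# TH2, block HYP: good reduction at a place whose residues of the critical points are rational
-/

set_option autoImplicit false

namespace Pool.Agent.Helper86.TH2

open Polynomial Pool.Agent.Helper61.TH Pool.Agent.Helper87.FK Pool.Agent.Helper26.OB
open Pool.Agent.Helper86.TH (natDegree_wr natDegree_pl coeff_pl_top)

noncomputable section

variable {p : ℕ} [hp : Fact p.Prime] (τ : ℂ →+* PadicAlgCl p)

theorem lift_prod (s : Multiset ℂ) (hs : ∀ z ∈ s, ‖τ z‖ ≤ 1) : ∃ P : (Ot τ)[X],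
    P.map (Ot τ).subtype = (s.map (fun z => X - C z)).prod ∧
      P.map (rh τ) = (s.map (fun z => X - C (rd τ z))).prod := by
  induction s using Multiset.induction_on with
  | empty => exact ⟨1, by simp, by simp⟩
  | cons a s ih =>
    obtain ⟨P, h1, h2⟩ := ih (fun z hz => hs z (Multiset.mem_cons_of_mem hz))
    let a' : Ot τ := ⟨a, (mem_Ot τ).2 (hs a (Multiset.mem_cons_self a s))⟩
    refine ⟨(X - C a') * P, ?_, ?_⟩
    · rw [Polynomial.map_mul, h1, Multiset.map_cons, Multiset.prod_cons, Polynomial.map_sub, map_X,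
        map_C]
      rfl
    · rw [Polynomial.map_mul, h2, Multiset.map_cons, Multiset.prod_cons, Polynomial.map_sub, map_X,
        map_C, ← rd_coe]

/-- the reduction of a polynomial with integral roots and a leading coefficient which is a unit -/
theorem map_rh_eq (fO : (Ot τ)[X]) (f : ℂ[X]) (hf : fO.map (Ot τ).subtype = f) (N : ℕ)
    (hN : f.natDegree ≤ N) (htop : ‖τ (f.coeff N)‖ = 1) (hroots : ∀ z, eval z f = 0 → ‖τ z‖ ≤ 1) :
    fO.map (rh τ) = C (rd τ (f.coeff N)) * (f.roots.map (fun z => X - C (rd τ z))).prod := by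
  have h0 : f.coeff N ≠ 0 := by
    intro h
    rw [h, map_zero, norm_zero] at htop
    exact zero_ne_one htop
  have hf0 : f ≠ 0 := by
    intro h
    rw [h, coeff_zero] at h0
    exact h0 rfl
  have hdeg : f.natDegree = N := natDegree_eq_of_le_of_coeff_ne_zero hN h0
  have hlead : f.leadingCoeff = f.coeff N := by rw [leadingCoeff, hdeg]
  have hprod := (IsAlgClosed.splits f).eq_prod_roots
  obtain ⟨P, h1, h2⟩ := lift_prod τ f.roots fun z hz => hroots z ((mem_roots hf0).1 hz)
  let l : Ot τ := ⟨f.coeff N, (mem_Ot τ).2 htop.le⟩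
  have h3 : fO = C l * P := by
    apply Polynomial.map_injective (Ot τ).subtype Subtype.val_injective
    rw [Polynomial.map_mul, map_C, h1, hf]
    conv_lhs => rw [hprod, hlead]
    rfl
  rw [h3, Polynomial.map_mul, map_C, h2, ← rd_coe]

theorem exists_of_pow_eq (κ : ZMod p →+* kk p) {x : kk p} (hx : x ^ p = x) : ∃ e, κ e = x := by
  have : CharP (kk p) p := charP_kk p
  have h1 : x ∈ (⊥ : Subfield (kk p)) := (Subfield.mem_bot_iff_pow_eq_self (kk p) p).2 hx
  have h2 : x ∈ κ.fieldRange := (bot_le : ⊥ ≤ κ.fieldRange) h1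
  exact RingHom.mem_fieldRange.1 h2

theorem splits_lift (κ : ZMod p →+* kk p) (s : Multiset ℂ) (hs : ∀ z ∈ s, rd τ z ^ p = rd τ z) :
    ∃ Q : (ZMod p)[X], Q.Splits ∧ Q.map κ = (s.map (fun z => X - C (rd τ z))).prod := by
  induction s using Multiset.induction_on with
  | empty => exact ⟨1, Splits.one, by simp⟩
  | cons a s ih =>
    obtain ⟨Q, h1, h2⟩ := ih (fun z hz => hs z (Multiset.mem_cons_of_mem hz))
    obtain ⟨e, he⟩ := exists_of_pow_eq κ (hs a (Multiset.mem_cons_self a s))
    refine ⟨(X - C e) * Q, (Splits.X_sub_C e).mul h1, ?_⟩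
    rw [Polynomial.map_mul, h2, Multiset.map_cons, Multiset.prod_cons, Polynomial.map_sub, map_X,
      map_C, he]

theorem eval_prod_eq_zero {F : Type*} [Field F] (s : Multiset ℂ) (g : ℂ → F) (x : F)
    (h : eval x ((s.map (fun z => X - C (g z))).prod) = 0) : ∃ z ∈ s, x = g z := by
  induction s using Multiset.induction_on with
  | empty => simp at h
  | cons a s ih =>
    rw [Multiset.map_cons, Multiset.prod_cons, eval_mul, mul_eq_zero] at h
    rcases h with h | h
    · rw [eval_sub, eval_X, eval_C, sub_eq_zero] at h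
      exact ⟨a, Multiset.mem_cons_self a s, h⟩
    · obtain ⟨z, hz, hx⟩ := ih h
      exact ⟨z, Multiset.mem_cons_of_mem hz, hx⟩

/-- **HYP** -/
theorem hypU_of {s : ℕ} {d : Fin s → ℕ} (hd : ∀ a, 2 ≤ d a) (c : Idx d → ℂ) {p : ℕ} [Fact p.Prime]
    (hp : ∀ a, d a < p) (τ : ℂ →+* PadicAlgCl p)
    (hc : ∀ q, ‖τ (c q)‖ ≤ 1 ∧ rd τ (c q) ^ p = rd τ (c q))
    (htop : ∀ a, ‖τ ((wr c a).coeff (2 * d a - 2))‖ = 1)
    (hz : ∀ a z, eval z (wr c a) = 0 → ‖τ z‖ ≤ 1 ∧ rd τ z ^ p = rd τ z)
    (hlead : ∀ a b z, eval z (wr c a) = 0 → ‖τ (lc c b 0 - z * lc c b 1)‖ = 1)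
    (hy : ∀ a b z y, eval z (wr c a) = 0 → eval y (pl c b 0) = z * eval y (pl c b 1) →
      ‖τ y‖ ≤ 1 ∧ rd τ y ^ p ≠ rd τ y)
    (κ : ZMod p →+* kk p) (c' : Idx d → ZMod p) (hc' : ∀ q, κ (c' q) = rd τ (c q)) : HypU c' := by
  let cO : Idx d → Ot τ := fun q => ⟨c q, (mem_Ot τ).2 (hc q).1⟩
  have hκ : Function.Injective κ := κ.injective
  have e1 : ∀ a, (wr cO a).map (Ot τ).subtype = wr c a := fun a => map_wr _ _ _
  have e2 : ∀ a, (wr cO a).map (rh τ) = (wr c' a).map κ := by
    intro a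
    rw [map_wr, map_wr]
    congr 1
    funext q
    rw [hc', ← rd_coe]
  have p1 : ∀ b i, (pl cO b i).map (Ot τ).subtype = pl c b i := fun b i => map_pl _ _ _ _
  have p2 : ∀ b i, (pl cO b i).map (rh τ) = (pl c' b i).map κ := by
    intro b i
    rw [map_pl, map_pl]
    congr 1
    funext q
    rw [hc', ← rd_coe]
  -- the Wronskian
  have hW : ∀ a, (wr c' a).map κ = C (rd τ ((wr c a).coeff (2 * d a - 2))) *
      ((wr c a).roots.map (fun z => X - C (rd τ z))).prod := by
    intro a
    rw [← e2 a]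
    exact map_rh_eq τ (wr cO a) (wr c a) (e1 a) (2 * d a - 2)
      (natDegree_wr c a (by have := hd a; omega)) (htop a) fun z h => (hz a z h).1
  have hw0 : ∀ a, wr c a ≠ 0 := by
    intro a h
    have h1 := htop a
    rw [h, coeff_zero, map_zero, norm_zero] at h1
    exact zero_ne_one h1
  have htop' : ∀ a, κ ((wr c' a).coeff (2 * d a - 2)) = rd τ ((wr c a).coeff (2 * d a - 2)) := by
    intro a
    have h1 := congrArg (fun P => P.coeff (2 * d a - 2)) (e2 a)
    simp only [coeff_map] at h1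
    rw [← h1, ← rd_coe]
    congr 1
    have h2 := congrArg (fun P => P.coeff (2 * d a - 2)) (e1 a)
    simp only [coeff_map] at h2
    exact h2
  -- roots of the reduction are residues of roots
  have hroot : ∀ a z', eval z' (wr c' a) = 0 → ∃ z, eval z (wr c a) = 0 ∧ κ z' = rd τ z := by
    intro a z' h
    have h1 : eval (κ z') ((wr c' a).map κ) = 0 := by
      rw [eval_map, eval₂_hom, h, map_zero]
    rw [hW a, eval_mul, eval_C, mul_eq_zero] at h1
    rcases h1 with h1 | h1
    · rw [rd_eq_zero τ (htop a).le] at h1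
      exact absurd (htop a) h1.ne
    · obtain ⟨z, h2, h3⟩ := eval_prod_eq_zero _ _ _ h1
      exact ⟨z, (mem_roots (hw0 a)).1 h2, h3⟩
  constructor
  · intro a h
    rw [ZMod.natCast_eq_zero_iff] at h
    have h1 := Nat.le_of_dvd (by have := hd a; omega) h
    have h2 := hp a
    omega
  · intro a h
    have h1 := htop' a
    rw [h, map_zero] at h1
    have h2 := (rd_eq_zero τ (htop a).le).1 h1.symm
    exact absurd (htop a) h2.ne
  · intro a
    obtain ⟨Q, h1, h2⟩ := splits_lift τ κ (wr c a).roots fun z h => (hz a z ((mem_roots (hw0 a)).1 h)).2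
    have h3 : wr c' a = C ((wr c' a).coeff (2 * d a - 2)) * Q := by
      apply Polynomial.map_injective κ hκ
      rw [Polynomial.map_mul, map_C, htop' a, h2, hW a]
    rw [h3]
    exact (Splits.C _).mul h1
  · intro a b z' h h0
    obtain ⟨z, h1, h2⟩ := hroot a z' h
    have hz1 := (hz a z h1).1
    let zO : Ot τ := ⟨z, (mem_Ot τ).2 hz1⟩
    have h3 := congrArg κ h0
    unfold lc at h3
    rw [map_mul, hc', hc', h2] at h3
    have h4 : rh τ (cO ⟨b, (0, Fin.last (d b))⟩ - zO * cO ⟨b, (1, Fin.last (d b))⟩) = 0 := by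
      rw [map_sub, map_mul, ← rd_coe, ← rd_coe, ← rd_coe, sub_eq_zero]
      exact h3
    rw [rh_eq_zero] at h4
    exact absurd (hlead a b z h1) h4.ne
  · intro a b z' y' h h0
    obtain ⟨z, h1, h2⟩ := hroot a z' h
    have hz1 := (hz a z h1).1
    let zO : Ot τ := ⟨z, (mem_Ot τ).2 hz1⟩
    -- the polynomial of the fibre
    have g1 : (pl cO b 0 - C zO * pl cO b 1).map (Ot τ).subtype = pl c b 0 - C z * pl c b 1 := by
      rw [Polynomial.map_sub, Polynomial.map_mul, map_C, p1, p1]
      rfl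
    have g2 : (pl c b 0 - C z * pl c b 1).natDegree ≤ d b :=
      (natDegree_sub_le _ _).trans (max_le (natDegree_pl c b 0)
        ((natDegree_C_mul_le _ _).trans (natDegree_pl c b 1)))
    have g3 : (pl c b 0 - C z * pl c b 1).coeff (d b) = lc c b 0 - z * lc c b 1 := by
      rw [coeff_sub, coeff_C_mul, coeff_pl_top, coeff_pl_top]
    have g4 : ∀ y, eval y (pl c b 0 - C z * pl c b 1) = 0 →
        eval y (pl c b 0) = z * eval y (pl c b 1) := by
      intro y hy0
      rw [eval_sub, eval_mul, eval_C, sub_eq_zero] at hy0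
      exact hy0
    have g5 := map_rh_eq τ _ _ g1 (d b) g2 (by rw [g3]; exact hlead a b z h1)
      fun y hy0 => (hy a b z y h1 (g4 y hy0)).1
    have g0 : pl c b 0 - C z * pl c b 1 ≠ 0 := by
      intro h3
      have h4 := hlead a b z h1
      rw [← g3, h3, coeff_zero, map_zero, norm_zero] at h4
      exact zero_ne_one h4
    have g6 : eval (κ y') ((pl cO b 0 - C zO * pl cO b 1).map (rh τ)) = 0 := by
      rw [Polynomial.map_sub, Polynomial.map_mul, map_C, p2, p2, ← rd_coe, eval_sub, eval_mul, eval_C,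
        eval_map, eval₂_hom, eval_map, eval₂_hom, sub_eq_zero]
      change _ = rd τ z * _
      rw [← h2, ← map_mul, h0]
    rw [g5, eval_mul, eval_C, mul_eq_zero] at g6
    rcases g6 with g6 | g6
    · have h3 : ‖τ ((pl c b 0 - C z * pl c b 1).coeff (d b))‖ = 1 := by
        rw [g3]; exact hlead a b z h1
      rw [rd_eq_zero τ h3.le] at g6
      exact absurd h3 g6.ne
    · obtain ⟨y, h3, h4⟩ := eval_prod_eq_zero _ _ _ g6
      have h5 := (hy a b z y h1 (g4 y ((mem_roots g0).1 h3))).2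
      apply h5
      rw [← h4, ← map_pow, ZMod.pow_card]

end

end Pool.Agent.Helper86.TH2
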